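import Mathlib
import Pool.Agent.TH841.FD.Main3
import Pool.Agent.TH841.FD.Covl

/-!
# Locally solvable quartics and their double coverings: general lemmas
-/

set_option autoImplicit false

namespace Pool.Agent.Q323.FM

open Finset Polynomial

open Pool.Agent.TH841.NO (SQ Qu sq_finite)
open Pool.Agent.TH841.FD (LF)

lemma one_mem (A B : ℤ) : (1 : ℤ) ∈ SQ (-(A + B)) (A * B) := by
  refine ⟨squarefree_one, one_dvd _, ⟨1, 1, 0, Or.inl one_ne_zero, ?_⟩, fun p _ =>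
    ⟨1, 1, 0, Or.inl one_ne_zero, ?_⟩⟩
  · push_cast
    ring
  · push_cast
    ring

lemma one_lf {A B : ℤ} (hAB : A ≠ B) : (1 : ℤ) ∈ LF A B :=
  Pool.Agent.TH841.FD.rat_mem hAB (one_mem A B)
    ⟨1, 1, 0, Or.inl one_ne_zero, by push_cast; ring⟩

lemma lf_fin {A B : ℤ} (hA : A ≠ 0) (hB : B ≠ 0) : (LF A B).Finite :=
  (sq_finite (a := -(A + B)) (mul_ne_zero hA hB)).subset fun _ hx => hx.1

lemma lf_pos {A B : ℤ} (hA : A ≠ 0) (hB : B ≠ 0) (hAB : A ≠ B) : 1 ≤ (LF A B).ncard := by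
  rw [Nat.one_le_iff_ne_zero, Ne, Set.ncard_eq_zero (lf_fin hA hB)]
  exact (Set.nonempty_of_mem (one_lf hAB)).ne_empty

/-- the lower bound for the number of the quartics from the bound for the covered ones -/
lemma els_low {A B : ℤ} (hA : A ≠ 0) (hB : B ≠ 0) (hAB : A ≠ B) {M : ℕ} (hM : 3 ≤ M) {x δ : ℝ}
    (h : ((LF A B).ncard : ℝ) ≤ (Real.log M) ^ (δ - x) *
      ((SQ (-(A + B)) (A * B)).ncard : ℝ)) :
    (Real.log M) ^ (x - δ) ≤ ((SQ (-(A + B)) (A * B)).ncard : ℝ) := by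
  have h4 : (1 : ℝ) ≤ (Real.log M) ^ (δ - x) * ((SQ (-(A + B)) (A * B)).ncard : ℝ) :=
    le_trans (by exact_mod_cast lf_pos hA hB hAB) h
  have hlog : 0 < Real.log M := Real.log_pos (by
    have : (3 : ℝ) ≤ M := by exact_mod_cast hM
    linarith)
  have h5 : (Real.log M) ^ (x - δ) * (Real.log M) ^ (δ - x) = 1 := by
    rw [← Real.rpow_add hlog]
    norm_num
  have h6 : 0 < (Real.log M) ^ (x - δ) := Real.rpow_pos_of_pos hlog _
  calc (Real.log M) ^ (x - δ) = (Real.log M) ^ (x - δ) * 1 := by ring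
    _ ≤ (Real.log M) ^ (x - δ) * ((Real.log M) ^ (δ - x) *
        ((SQ (-(A + B)) (A * B)).ncard : ℝ)) := mul_le_mul_of_nonneg_left h4 h6.le
    _ = ((Real.log M) ^ (x - δ) * (Real.log M) ^ (δ - x)) *
        ((SQ (-(A + B)) (A * B)).ncard : ℝ) := by ring
    _ = _ := by rw [h5, one_mul]

end Pool.Agent.Q323.FM
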