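import Pool.Agent.Q323.FM.Base

/-!
# Coprime pairs: the second moment of the number of the quartics with a locally solvable covering
-/

set_option autoImplicit false

namespace Pool.Agent.Q323.FM

open Finset Polynomial

open Pool.Agent.TH841.NO (SQ Qu sq_finite)
open Pool.Agent.TH841.FD (LF)

lemma ss_nonneg (D : ℤ) (t : ℤ × ℤ) : 0 ≤ Pool.Agent.W307.FK.SS D t := by
  unfold Pool.Agent.W307.FK.SS
  split_ifs
  · positivity
  · exact le_rfl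

lemma lf_ss {D a b : ℤ} (hD : D ≠ 0) (h : IsCoprime a b ∧ a ≠ 0 ∧ b ≠ 0 ∧ a ≠ b) :
    ((LF (D * a) (D * b)).ncard : ℝ) ^ 2 ≤ Pool.Agent.W307.FK.SS D (a, b) := by
  unfold Pool.Agent.W307.FK.SS
  rw [if_pos h]
  obtain ⟨h1, h2, h3, h4⟩ := h
  have hne : D * a ≠ D * b := fun h' => h4 (mul_left_cancel₀ hD h')
  exact pow_le_pow_left₀ (Nat.cast_nonneg _) (Pool.Agent.TH841.FD.lf_le
    Pool.Agent.TH841.FD.COVLf.covl (mul_ne_zero hD h2) (mul_ne_zero hD h3) hne) 2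

lemma nat_le {N : ℤ} {X L : ℕ} (h : |N| ≤ (X : ℤ) ^ L) : N.natAbs ≤ X ^ L := by
  have : (N.natAbs : ℤ) ≤ (X : ℤ) ^ L := by rw [Int.natCast_natAbs]; exact h
  exact_mod_cast this

open Classical in
/-- the second moment -/
theorem pairs_mom (L : ℕ) : ∃ C : ℝ, ∀ (D N₁ N₂ : ℤ) (X : ℕ), D ≠ 0 → 1 ≤ X →
    |N₁| ≤ (X : ℤ) ^ L → |N₂| ≤ (X : ℤ) ^ L →
    ∑ t ∈ (Ioc N₁ (N₁ + (X : ℤ)) ×ˢ Ioc N₂ (N₂ + (X : ℤ))).filter (fun t : ℤ × ℤ =>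
      IsCoprime t.1 t.2 ∧ t.1 ≠ 0 ∧ t.2 ≠ 0 ∧ t.1 ≠ t.2),
      ((LF (D * t.1) (D * t.2)).ncard : ℝ) ^ 2 ≤
    C * 128 ^ D.natAbs.primeFactors.card * X ^ 2 := by
  obtain ⟨C0, -, hC⟩ := (Pool.Agent.W307.FK.avgn_of Pool.Agent.W307.FK.expf) L
  refine ⟨C0, fun D N₁ N₂ X hD hX hN₁ hN₂ => ?_⟩
  refine le_trans ?_ (hC D N₁ N₂ X hD hX (nat_le hN₁) (nat_le hN₂))
  have e1 : ∑ t ∈ (Ioc N₁ (N₁ + (X : ℤ)) ×ˢ Ioc N₂ (N₂ + (X : ℤ))).filter (fun t : ℤ × ℤ =>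
      IsCoprime t.1 t.2 ∧ t.1 ≠ 0 ∧ t.2 ≠ 0 ∧ t.1 ≠ t.2),
      ((LF (D * t.1) (D * t.2)).ncard : ℝ) ^ 2 ≤
      ∑ t ∈ Ioc N₁ (N₁ + (X : ℤ)) ×ˢ Ioc N₂ (N₂ + (X : ℤ)), Pool.Agent.W307.FK.SS D t := by
    refine (sum_le_sum fun t ht => lf_ss hD (mem_filter.1 ht).2).trans ?_
    exact sum_le_sum_of_subset_of_nonneg (filter_subset _ _) fun t _ _ => ss_nonneg D t
  refine e1.trans (le_of_eq ?_)
  symm
  refine sum_bij (fun (t : ℕ × ℕ) _ => (N₁ + (t.1 : ℤ), N₂ + (t.2 : ℤ))) ?_ ?_ ?_ ?_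
  · intro t ht
    rw [mem_product, mem_Icc, mem_Icc] at ht
    rw [mem_product, mem_Ioc, mem_Ioc]
    refine ⟨⟨?_, ?_⟩, ?_, ?_⟩
    · show N₁ < N₁ + (t.1 : ℤ)
      omega
    · show N₁ + (t.1 : ℤ) ≤ N₁ + (X : ℤ)
      omega
    · show N₂ < N₂ + (t.2 : ℤ)
      omega
    · show N₂ + (t.2 : ℤ) ≤ N₂ + (X : ℤ)
      omega
  · intro s _ t _ hst
    rw [Prod.mk.injEq] at hst
    ext
    · have := hst.1
      omega
    · have := hst.2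
      omega
  · intro t ht
    rw [mem_product, mem_Ioc, mem_Ioc] at ht
    obtain ⟨⟨a1, a2⟩, a3, a4⟩ := ht
    refine ⟨((t.1 - N₁).toNat, (t.2 - N₂).toNat), ?_, ?_⟩
    · rw [mem_product, mem_Icc, mem_Icc]
      refine ⟨⟨?_, ?_⟩, ?_, ?_⟩
      · show 1 ≤ (t.1 - N₁).toNat
        omega
      · show (t.1 - N₁).toNat ≤ X
        omega
      · show 1 ≤ (t.2 - N₂).toNat
        omega
      · show (t.2 - N₂).toNat ≤ X
        omega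
    · ext
      · show N₁ + (((t.1 - N₁).toNat : ℕ) : ℤ) = t.1
        omega
      · show N₂ + (((t.2 - N₂).toNat : ℕ) : ℤ) = t.2
        omega
  · intro t _
    rfl

open Classical in
/-- boundedly many covered quartics and many quartics for almost all coprime pairs -/
theorem pairs_ae2 (D : ℤ) (hD : D ≠ 0) (δ ε : ℝ) (L : ℕ) (hδ : 0 < δ) (hε : 0 < ε) :
    ∃ K X₀ : ℕ, ∀ (N₁ N₂ : ℤ) (X : ℕ), X₀ ≤ X → |N₁| ≤ (X : ℤ) ^ L → |N₂| ≤ (X : ℤ) ^ L →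
      (((Ioc N₁ (N₁ + (X : ℤ)) ×ˢ Ioc N₂ (N₂ + (X : ℤ))).filter (fun t : ℤ × ℤ =>
        IsCoprime t.1 t.2 ∧ ¬ ∀ A B : ℤ, A = D * t.1 → B = D * t.2 →
        A ≠ 0 ∧ B ≠ 0 ∧ A ≠ B ∧ (LF A B).ncard ≤ K ∧
        (Real.log X) ^ (3 / 2 * Real.log 2 - δ) ≤
          ((SQ (-(A + B)) (A * B)).ncard : ℝ))).card : ℝ) ≤ ε * X ^ 2 := by
  obtain ⟨C0, hC0⟩ := pairs_mom L
  obtain ⟨X1, h1⟩ := Pool.Agent.TH841.FD.pairs_ae Pool.Agent.TH841.FD.COVLf.covl D hD δ (ε / 2) L hδ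
    (by positivity)
  set C1 : ℝ := |C0| * 128 ^ D.natAbs.primeFactors.card + 1 with hC1
  have hC1p : 0 < C1 := by positivity
  obtain ⟨K, hK⟩ := exists_nat_ge (2 * C1 / ε)
  refine ⟨K, X1 + 3, fun N₁ N₂ X hX hN₁ hN₂ => ?_⟩
  have hmom := hC0 D N₁ N₂ X hD (by omega) hN₁ hN₂
  set S : Finset (ℤ × ℤ) := (Ioc N₁ (N₁ + (X : ℤ)) ×ˢ Ioc N₂ (N₂ + (X : ℤ))).filter
    (fun t : ℤ × ℤ => IsCoprime t.1 t.2 ∧ t.1 ≠ 0 ∧ t.2 ≠ 0 ∧ t.1 ≠ t.2) with hS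
  have hX0 : (0 : ℝ) ≤ (X : ℝ) ^ 2 := by positivity
  set bad : Finset (ℤ × ℤ) := S.filter (fun t => K < (LF (D * t.1) (D * t.2)).ncard)
    with hbad
  have c2 : (bad.card : ℝ) ≤ ε / 2 * X ^ 2 := by
    have h5 : (bad.card : ℝ) * (2 * C1 / ε) ≤ C1 * X ^ 2 := by
      have h6 : C0 * 128 ^ D.natAbs.primeFactors.card * (X : ℝ) ^ 2 ≤ C1 * X ^ 2 := by
        refine mul_le_mul_of_nonneg_right ?_ hX0
        have h7 : C0 * 128 ^ D.natAbs.primeFactors.card ≤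
            |C0| * 128 ^ D.natAbs.primeFactors.card :=
          mul_le_mul_of_nonneg_right (le_abs_self _) (by positivity)
        rw [hC1]
        linarith
      refine le_trans ?_ (hmom.trans h6)
      rw [← nsmul_eq_mul]
      refine le_trans (card_nsmul_le_sum bad
        (fun t => ((LF (D * t.1) (D * t.2)).ncard : ℝ) ^ 2) _ fun t ht => ?_)
        (sum_le_sum_of_subset_of_nonneg (filter_subset _ _) fun t _ _ => by positivity)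
      have h8 : K < (LF (D * t.1) (D * t.2)).ncard := (mem_filter.1 ht).2
      have h9 : (K : ℝ) ≤ (LF (D * t.1) (D * t.2)).ncard := by exact_mod_cast h8.le
      have h10 : (1 : ℝ) ≤ (LF (D * t.1) (D * t.2)).ncard := by
        exact_mod_cast (by omega : 1 ≤ (LF (D * t.1) (D * t.2)).ncard)
      nlinarith
    have h6 : (bad.card : ℝ) * (2 * C1) ≤ C1 * X ^ 2 * ε := by
      rw [← mul_div_assoc, div_le_iff₀ hε] at h5
      exact h5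
    have h7 : (bad.card : ℝ) * 2 ≤ X ^ 2 * ε := by
      by_contra hcon
      push Not at hcon
      nlinarith
    linarith
  set Y : Finset (ℤ × ℤ) := (Ioc N₁ (N₁ + (X : ℤ)) ×ˢ Ioc N₂ (N₂ + (X : ℤ))).filter
    (fun t : ℤ × ℤ => IsCoprime t.1 t.2 ∧ ¬ ∀ A B : ℤ, A = D * t.1 → B = D * t.2 →
        A ≠ 0 ∧ B ≠ 0 ∧ A ≠ B ∧ ((LF A B).ncard : ℝ) ≤
          (Real.log X) ^ (δ - 3 / 2 * Real.log 2) *
            ((SQ (-(A + B)) (A * B)).ncard : ℝ)) with hY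
  have c1 : (Y.card : ℝ) ≤ ε / 2 * X ^ 2 := by
    refine le_trans ?_ (h1 N₁ N₂ X (by omega) (nat_le hN₁) (nat_le hN₂))
    refine Nat.cast_le.2 ?_
    refine card_le_card_of_injOn (fun t : ℤ × ℤ => ((t.1 - N₁).toNat, (t.2 - N₂).toNat)) ?_ ?_
    · intro t ht
      rw [mem_coe, mem_filter, mem_product, mem_Ioc, mem_Ioc] at ht
      obtain ⟨⟨⟨a1, a2⟩, a3, a4⟩, a5, a6⟩ := ht
      have b1 : N₁ + (((t.1 - N₁).toNat : ℕ) : ℤ) = t.1 := by omega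
      have b2 : N₂ + (((t.2 - N₂).toNat : ℕ) : ℤ) = t.2 := by omega
      rw [mem_coe, mem_filter, mem_product, mem_Icc, mem_Icc]
      refine ⟨⟨⟨?_, ?_⟩, ?_, ?_⟩, ?_, ?_⟩
      · show 1 ≤ (t.1 - N₁).toNat
        omega
      · show (t.1 - N₁).toNat ≤ X
        omega
      · show 1 ≤ (t.2 - N₂).toNat
        omega
      · show (t.2 - N₂).toNat ≤ X
        omega
      · show IsCoprime (N₁ + (((t.1 - N₁).toNat : ℕ) : ℤ)) (N₂ + (((t.2 - N₂).toNat : ℕ) : ℤ))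
        rw [b1, b2]
        exact a5
      · intro hall
        apply a6
        intro A B hA hB
        exact hall A B (by
          show A = D * (N₁ + (((t.1 - N₁).toNat : ℕ) : ℤ))
          rw [b1, hA]) (by
          show B = D * (N₂ + (((t.2 - N₂).toNat : ℕ) : ℤ))
          rw [b2, hB])
    · intro s hs t ht hst
      rw [mem_coe, mem_filter, mem_product, mem_Ioc, mem_Ioc] at hs ht
      obtain ⟨⟨⟨a1, a2⟩, a3, a4⟩, -⟩ := hs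
      obtain ⟨⟨⟨b1, b2⟩, b3, b4⟩, -⟩ := ht
      have h7 : ((s.1 - N₁).toNat, (s.2 - N₂).toNat) = ((t.1 - N₁).toNat, (t.2 - N₂).toNat) := hst
      rw [Prod.mk.injEq] at h7
      ext
      · omega
      · omega
  have hsub : (Ioc N₁ (N₁ + (X : ℤ)) ×ˢ Ioc N₂ (N₂ + (X : ℤ))).filter (fun t : ℤ × ℤ =>
        IsCoprime t.1 t.2 ∧ ¬ ∀ A B : ℤ, A = D * t.1 → B = D * t.2 →
        A ≠ 0 ∧ B ≠ 0 ∧ A ≠ B ∧ (LF A B).ncard ≤ K ∧
        (Real.log X) ^ (3 / 2 * Real.log 2 - δ) ≤ ((SQ (-(A + B)) (A * B)).ncard : ℝ)) ⊆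
          Y ∪ bad := by
    intro t ht
    obtain ⟨ht1, ht2, ht3⟩ := mem_filter.1 ht
    by_contra hcon
    rw [mem_union, not_or] at hcon
    obtain ⟨n1, n2⟩ := hcon
    have m0 : ∀ A B : ℤ, A = D * t.1 → B = D * t.2 →
        A ≠ 0 ∧ B ≠ 0 ∧ A ≠ B ∧ ((LF A B).ncard : ℝ) ≤
          (Real.log X) ^ (δ - 3 / 2 * Real.log 2) *
            ((SQ (-(A + B)) (A * B)).ncard : ℝ) := by
      by_contra h'
      exact n1 (mem_filter.2 ⟨ht1, ht2, h'⟩)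
    apply ht3
    rintro A B rfl rfl
    obtain ⟨c1, c2, c3, c4⟩ := m0 _ _ rfl rfl
    have hU : (LF (D * t.1) (D * t.2)).ncard ≤ K := by
      by_contra h'
      refine n2 (mem_filter.2 ⟨mem_filter.2 ⟨ht1, ht2, ?_, ?_, ?_⟩, not_le.1 h'⟩)
      · exact right_ne_zero_of_mul c1
      · exact right_ne_zero_of_mul c2
      · intro h
        exact c3 (by rw [h])
    exact ⟨c1, c2, c3, hU, els_low c1 c2 c3 (by omega) c4⟩
  have h11 := (card_le_card hsub).trans (card_union_le _ _)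
  have h12 := (Nat.cast_le (α := ℝ)).2 h11
  rw [Nat.cast_add] at h12
  linarith

end Pool.Agent.Q323.FM
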