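import Pool.Agent.Q323.FM.Base
import Pool.Agent.TH841.PM.PenZ
import Pool.Agent.TH841.PM.Fin2

/-!
# One-parameter families: moments of the number of the covered quartics
-/

set_option autoImplicit false

namespace Pool.Agent.Q323.FM

open Finset Polynomial

open Pool.Agent.TH841.NO (SQ Qu sq_finite)
open Pool.Agent.TH841.FD (LF)

section

variable {n : Fin 3 → ℕ} {a : Fin 3 → ℤ} {f : ∀ k : Fin 3, Fin (n k) → ℤ[X]} {D : ℤ[X]}

lemma pen_ne (hu : Pool.Agent.TH841.TR.UP a f 0 - Pool.Agent.TH841.TR.UP a f 1 =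
    Pool.Agent.TH841.TR.UP a f 2) {t : ℤ}
    (h : ∀ k, (D * Pool.Agent.TH841.TR.UP a f k).eval t ≠ 0) :
    (D * Pool.Agent.TH841.TR.UP a f 0).eval t ≠ (D * Pool.Agent.TH841.TR.UP a f 1).eval t := by
  intro h'
  apply h 2
  rw [← hu, mul_sub, eval_sub, h', sub_self]

lemma pen_lf (hu : Pool.Agent.TH841.TR.UP a f 0 - Pool.Agent.TH841.TR.UP a f 1 =
    Pool.Agent.TH841.TR.UP a f 2) {t : ℤ}
    (h : ∀ k, (D * Pool.Agent.TH841.TR.UP a f k).eval t ≠ 0) :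
    ((LF ((D * Pool.Agent.TH841.TR.UP a f 0).eval t)
      ((D * Pool.Agent.TH841.TR.UP a f 1).eval t)).ncard : ℝ) ≤
    Pool.Agent.W307.SE.SN ((D * Pool.Agent.TH841.TR.UP a f 0).eval t)
      ((D * Pool.Agent.TH841.TR.UP a f 1).eval t) :=
  Pool.Agent.TH841.FD.lf_le Pool.Agent.TH841.FD.COVLf.covl (h 0) (h 1) (pen_ne hu h)

open Classical in
/-- the average -/
theorem pen_avg (ha : ∀ k, a k ≠ 0) (hD : D ≠ 0)
    (hf : Pool.Agent.TH841.PT.Irr (Pool.Agent.TH841.TR.fp f))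
    (hu : Pool.Agent.TH841.TR.UP a f 0 - Pool.Agent.TH841.TR.UP a f 1 =
      Pool.Agent.TH841.TR.UP a f 2) (hDf : ∀ k i, ¬ f k i ∣ D)
    (hb : Pool.Agent.TH841.TR.Bal D a f) (L : ℕ) :
    ∃ K : ℝ, ∀ (N : ℤ) (M : ℕ), 1 ≤ M → |N| ≤ (M : ℤ) ^ L →
      ∑ t ∈ (Ioc N (N + (M : ℤ))).filter (fun t => ∀ k,
        (D * Pool.Agent.TH841.TR.UP a f k).eval t ≠ 0),
        ((LF ((D * Pool.Agent.TH841.TR.UP a f 0).eval t)
          ((D * Pool.Agent.TH841.TR.UP a f 1).eval t)).ncard : ℝ) ≤ K * M := by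
  obtain ⟨C0, -, hC⟩ := Pool.Agent.TH841.TR.pen_all Pool.Agent.TH841.TR.tav3x a f ha hf hu D hD
    hDf hb L
  exact ⟨C0, fun N M hM hN => le_trans (sum_le_sum fun t ht => pen_lf hu (mem_filter.1 ht).2)
    (hC N M hM hN)⟩

open Classical in
/-- all the moments off a set of density zero -/
theorem pen_mom (ha : ∀ k, a k ≠ 0) (hD : D ≠ 0)
    (hf : Pool.Agent.TH841.PT.Irr (Pool.Agent.TH841.TR.fp f))
    (hu : Pool.Agent.TH841.TR.UP a f 0 - Pool.Agent.TH841.TR.UP a f 1 =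
      Pool.Agent.TH841.TR.UP a f 2) (hDf : ∀ k i, ¬ f k i ∣ D)
    (hn : ∀ k, 2 * n k < n 0 + n 1 + n 2) :
    ∃ Z : Set ℤ, (∀ (L : ℕ) (ε : ℝ), 0 < ε → ∃ M₀ : ℕ, ∀ (N : ℤ) (M : ℕ), M₀ ≤ M →
      |N| ≤ (M : ℤ) ^ L →
        (((Ioc N (N + (M : ℤ))).filter (fun t => t ∈ Z)).card : ℝ) ≤ ε * M) ∧
      (∀ t, t ∉ Z → ∀ k, (D * Pool.Agent.TH841.TR.UP a f k).eval t ≠ 0) ∧
      ∀ s L : ℕ, ∃ K : ℝ, ∀ (N : ℤ) (M : ℕ), 1 ≤ M → |N| ≤ (M : ℤ) ^ L →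
        ∑ t ∈ (Ioc N (N + (M : ℤ))).filter (fun t => t ∉ Z),
          ((LF ((D * Pool.Agent.TH841.TR.UP a f 0).eval t)
            ((D * Pool.Agent.TH841.TR.UP a f 1).eval t)).ncard : ℝ) ^ s ≤ K * M := by
  obtain ⟨Z, h1, h2, h3⟩ := Pool.Agent.TH841.PM.penZ Pool.Agent.TH841.PM.tavz a f ha hf hu D hD
    hDf hn
  refine ⟨Z, h1, h2, fun s L => ?_⟩
  obtain ⟨C0, -, hC⟩ := h3 s L
  refine ⟨C0, fun N M hM hN => le_trans (sum_le_sum fun t ht => ?_) (hC N M hM hN)⟩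
  exact pow_le_pow_left₀ (Nat.cast_nonneg _) (pen_lf hu (h2 t (mem_filter.1 ht).2)) s

open Classical in
/-- the number of the quartics -/
theorem pen_els (ha : ∀ k, a k ≠ 0) (hD : D ≠ 0)
    (hf : ∀ k i, Irreducible (f k i) ∧ 0 < (f k i).natDegree)
    (hff : ∀ k i l j, (⟨k, i⟩ : Σ k : Fin 3, Fin (n k)) ≠ ⟨l, j⟩ → ¬ Associated (f k i) (f l j))
    (hu : Pool.Agent.TH841.TR.UP a f 0 - Pool.Agent.TH841.TR.UP a f 1 =
      Pool.Agent.TH841.TR.UP a f 2) (hDf : ∀ k i, ¬ f k i ∣ D)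
    (hb : Pool.Agent.TH841.TR.Bal D a f) {m : ℕ} {c : ℤ} {g : Fin m → ℤ[X]}
    (hDg : D = C c * ∏ i, g i)
    (hg : ∀ i, Irreducible (g i) ∧ 0 < (g i).natDegree)
    (hgg : ∀ i j, i ≠ j → ¬ Associated (g i) (g j)) (δ ε : ℝ) (L : ℕ) (hδ : 0 < δ) (hε : 0 < ε) :
    ∃ M₀ : ℕ, ∀ (N : ℤ) (M : ℕ), M₀ ≤ M → |N| ≤ (M : ℤ) ^ L →
      (((Ioc N (N + (M : ℤ))).filter (fun t => ¬ ∀ A B : ℤ,
        A = (D * Pool.Agent.TH841.TR.UP a f 0).eval t →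
        B = (D * Pool.Agent.TH841.TR.UP a f 1).eval t → A ≠ 0 ∧ B ≠ 0 ∧ A ≠ B ∧
        (Real.log M) ^ (Pool.Agent.TH841.LS.sc a f c g * Real.log 2 - δ) ≤
          ((SQ (-(A + B)) (A * B)).ncard : ℝ))).card : ℝ) ≤ ε * M := by
  have hc : c ≠ 0 := by
    rintro rfl
    apply hD
    rw [hDg, C_0, zero_mul]
  have hfg : ∀ k i j, ¬ Associated (f k i) (g j) := by
    intro k i j h
    apply hDf k i
    rw [hDg]
    exact (h.dvd.trans (Finset.dvd_prod_of_mem g (Finset.mem_univ j))).mul_left _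
  have hirr : Pool.Agent.TH841.PT.Irr (Pool.Agent.TH841.TR.allf g f) := by
    refine ⟨?_, ?_, ?_⟩
    · rintro (x | i)
      · exact (hf x.1 x.2).1
      · exact (hg i).1
    · rintro (x | i)
      · exact (hf x.1 x.2).2
      · exact (hg i).2
    · rintro (x | i) (y | j) hxy
      · exact hff x.1 x.2 y.1 y.2 (fun h => hxy (congrArg Sum.inl h))
      · exact hfg x.1 x.2 j
      · exact fun h => hfg y.1 y.2 i h.symm
      · exact hgg i j (fun h => hxy (congrArg Sum.inr h))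
  have hDG : Pool.Agent.TH841.LS.DG c g = D := hDg.symm
  obtain ⟨M1, h1⟩ := Pool.Agent.TH841.FD.pencil_ae Pool.Agent.TH841.FD.COVLf.covl a f c g ha hc
    hirr hu (by rw [hDG]; exact hb) δ ε L hδ hε
  rw [hDG] at h1
  refine ⟨M1 + 3, fun N M hM hN => ?_⟩
  refine le_trans (Nat.cast_le.2 (card_le_card fun t ht => ?_)) (h1 N M (by omega) hN)
  obtain ⟨ht1, ht2⟩ := mem_filter.1 ht
  refine mem_filter.2 ⟨ht1, fun hall => ht2 ?_⟩
  intro A B hA hB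
  obtain ⟨c1, c2, c3, c4⟩ := hall A B hA hB
  exact ⟨c1, c2, c3, els_low c1 c2 c3 (by omega) c4⟩

end

end Pool.Agent.Q323.FM
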