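import Pool.Agent.Q323.FM.Base
import Pool.Agent.TH841.PT.Fin1
import Pool.Agent.Y212.RZ.Selc2

/-!
# Twist families: all the moments
-/

set_option autoImplicit false

namespace Pool.Agent.Q323.FM

open Finset Polynomial

open Pool.Agent.TH841.NO (SQ Qu sq_finite)
open Pool.Agent.TH841.FD (LF)

open Classical in
/-- all the moments of the number of the covered quartics in the twist family by `D(t)` -/
theorem tw_mom {A B : ℤ} {D : ℤ[X]} (hA : A ≠ 0) (hB : B ≠ 0) (hAB : A ≠ B) (hD : D ≠ 0)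
    (s L : ℕ) : ∃ K : ℝ, ∀ (N : ℤ) (M : ℕ), 1 ≤ M → |N| ≤ (M : ℤ) ^ L →
      ∑ t ∈ (Ioc N (N + (M : ℤ))).filter (fun t => D.eval t ≠ 0),
        ((LF (A * D.eval t) (B * D.eval t)).ncard : ℝ) ^ s ≤ K * M := by
  set e1 : ℤ := -3 * (A + B) with he1
  set e2 : ℤ := 6 * A - 3 * B with he2
  set e3 : ℤ := 6 * B - 3 * A with he3
  have h : ∀ x : ℤ, x ^ 3 + (e1 * e2 + e1 * e3 + e2 * e3) * x + (-(e1 * e2 * e3)) =
      (x - e1) * (x - e2) * (x - e3) := by
    intro x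
    rw [he1, he2, he3]
    ring
  have hE : 4 * (e1 * e2 + e1 * e3 + e2 * e3) ^ 3 + 27 * (-(e1 * e2 * e3)) ^ 2 ≠ 0 := by
    have : 4 * (e1 * e2 + e1 * e3 + e2 * e3) ^ 3 + 27 * (-(e1 * e2 * e3)) ^ 2 =
        -(729 * (A * B * (A - B))) ^ 2 := by
      rw [he1, he2, he3]
      ring
    rw [this]
    exact neg_ne_zero.2 (pow_ne_zero 2 (mul_ne_zero (by norm_num)
      (mul_ne_zero (mul_ne_zero hA hB) (sub_ne_zero.2 hAB))))
  obtain ⟨K, hK⟩ := Pool.Agent.TH841.PT.sel_poly Pool.Agent.TH841.PT.avsq hE h D hD s L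
  refine ⟨K, fun N M hM hN => le_trans (sum_le_sum fun t ht => ?_) (hK N M hM hN)⟩
  have hd := (mem_filter.1 ht).2
  set d : ℤ := D.eval t with hdd
  have k1 : A * d ≠ 0 := mul_ne_zero hA hd
  have k2 : B * d ≠ 0 := mul_ne_zero hB hd
  have k3 : A * d ≠ B * d := fun h' => hAB (mul_right_cancel₀ hd h')
  have hf := Pool.Agent.W307.SE.sel_fin Pool.Agent.W410.FK.seld k1 k2 k3
  obtain ⟨-, s2⟩ := Pool.Agent.Y212.RZ.SELC2 _ _ (d * e1) (d * e2) (d * e3) (A * d) (B * d) 3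
    (Pool.Agent.TH639.SL.disc_tw hd hE) (Pool.Agent.TH639.SL.roots_tw h d) (by norm_num)
    (by rw [he1, he2]; push_cast; ring) (by rw [he1, he3]; push_cast; ring) hf
  refine pow_le_pow_left₀ (Nat.cast_nonneg _) ?_ s
  refine (Pool.Agent.TH841.FD.lf_le Pool.Agent.TH841.FD.COVLf.covl k1 k2 k3).trans (le_of_eq ?_)
  unfold Pool.Agent.W307.SE.SN
  rw [s2]

open Classical in
/-- the number of the quartics in the twist family by `D(t)` -/
theorem tw_els {A B : ℤ} {D : ℤ[X]} (hA : A ≠ 0) (hB : B ≠ 0) (hAB : A ≠ B) (hD : D ≠ 0)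
    {m : ℕ} {c : ℤ} {g : Fin m → ℤ[X]} (hDg : D = C c * ∏ i, g i)
    (hg : ∀ i, Irreducible (g i) ∧ 0 < (g i).natDegree)
    (hgg : ∀ i j, i ≠ j → ¬ Associated (g i) (g j)) (ε η : ℝ) (L : ℕ) (hε : 0 < ε) (hη : 0 < η) :
    ∃ M₀ : ℕ, ∀ (N : ℤ) (M : ℕ), M₀ ≤ M → |N| ≤ (M : ℤ) ^ L →
        (((Ioc N (N + (M : ℤ))).filter (fun t => ¬ (D.eval t ≠ 0 ∧
          (Real.log M) ^ (((univ.filter (fun i => ¬ Pool.Agent.TH841.LS.SqMod (g i)
            (C A * C B))).card : ℝ) / 2 * Real.log 2 - η) ≤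
            ((SQ (-(A * D.eval t + B * D.eval t))
              ((A * D.eval t) * (B * D.eval t))).ncard : ℝ)))).card : ℝ) ≤ ε * M := by
  have hc : c ≠ 0 := by
    rintro rfl
    apply hD
    rw [hDg, C_0, zero_mul]
  let n : Fin 3 → ℕ := fun _ => 0
  let a : Fin 3 → ℤ := ![A, B, A - B]
  let f : ∀ k : Fin 3, Fin (n k) → ℤ[X] := fun _ i => i.elim0
  have ha : ∀ k, a k ≠ 0 := by
    intro k
    fin_cases k
    · exact hA
    · exact hB
    · exact sub_ne_zero.2 hAB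
  have hUP : ∀ k, Pool.Agent.TH841.TR.UP a f k = C (a k) := by
    intro k
    unfold Pool.Agent.TH841.TR.UP
    have e : (∏ i, f k i) = 1 := by
      change (∏ i : Fin 0, _) = 1
      exact Finset.prod_of_isEmpty _
    rw [e, mul_one]
  have hirr : Pool.Agent.TH841.PT.Irr (Pool.Agent.TH841.TR.allf g f) := by
    refine ⟨?_, ?_, ?_⟩
    · rintro (⟨k, x⟩ | i)
      · exact x.elim0
      · exact (hg i).1
    · rintro (⟨k, x⟩ | i)
      · exact x.elim0
      · exact (hg i).2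
    · rintro (⟨k, x⟩ | i) (⟨l, y⟩ | j) hxy
      · exact x.elim0
      · exact x.elim0
      · exact y.elim0
      · exact hgg i j (fun h => hxy (congrArg Sum.inr h))
  have hu : Pool.Agent.TH841.TR.UP a f 0 - Pool.Agent.TH841.TR.UP a f 1 =
      Pool.Agent.TH841.TR.UP a f 2 := by
    rw [hUP, hUP, hUP, ← C_sub]
    rfl
  have hbal : Pool.Agent.TH841.TR.Bal (Pool.Agent.TH841.LS.DG c g) a f := by
    intro k
    have e : (univ.filter (fun i : Fin (n k) => Pool.Agent.TH841.TR.SqM (f k i)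
        (Pool.Agent.TH841.TR.vp (Pool.Agent.TH841.LS.DG c g) a f k))).card = 0 := by
      rw [Finset.card_eq_zero, Finset.filter_eq_empty_iff]
      intro x
      exact x.elim0
    rw [e]
    exact Nat.le_refl 0
  have hsc : Pool.Agent.TH841.LS.sc a f c g =
      ((univ.filter (fun i => ¬ Pool.Agent.TH841.LS.SqMod (g i) (C A * C B))).card : ℝ) / 2 := by
    unfold Pool.Agent.TH841.LS.sc
    have e : (univ.filter (fun i : Fin (n 2) => Pool.Agent.TH841.LS.SqMod (f 2 i)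
        (Pool.Agent.TH841.LS.DG c g * Pool.Agent.TH841.TR.UP a f 0))).card = 0 := by
      rw [Finset.card_eq_zero, Finset.filter_eq_empty_iff]
      intro x
      exact x.elim0
    rw [e, hUP, hUP]
    have e2 : ((univ.filter (fun i => ¬ Pool.Agent.TH841.LS.SqMod (g i)
        (C (a 0) * C (a 1)))).card : ℝ) =
        ((univ.filter (fun i => ¬ Pool.Agent.TH841.LS.SqMod (g i) (C A * C B))).card : ℝ) := rfl
    rw [e2]
    simp [n]
  obtain ⟨M1, h1⟩ := Pool.Agent.TH841.FD.pencil_ae Pool.Agent.TH841.FD.COVLf.covl a f c g ha hc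
    hirr hu hbal η ε L hη hε
  refine ⟨M1 + 3, fun N M hM hN => ?_⟩
  refine le_trans (Nat.cast_le.2 (card_le_card fun t ht => ?_)) (h1 N M (by omega) hN)
  obtain ⟨ht1, ht2⟩ := mem_filter.1 ht
  refine mem_filter.2 ⟨ht1, fun hall => ht2 ?_⟩
  have hev : ∀ k, (Pool.Agent.TH841.LS.DG c g * Pool.Agent.TH841.TR.UP a f k).eval t =
      a k * D.eval t := by
    intro k
    rw [hUP, eval_mul, eval_C, mul_comm]
    congr 1
    rw [hDg]
    rfl
  obtain ⟨c1, c2, c3, c4⟩ := hall (A * D.eval t) (B * D.eval t) (hev 0).symm (hev 1).symm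
  rw [hsc] at c4
  exact ⟨right_ne_zero_of_mul c1, els_low c1 c2 c3 (by omega) c4⟩

end Pool.Agent.Q323.FM
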